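import Pool.Agent.U289.KT.Windows

/-! The theorem for shifts and primes in a progression. -/

set_option autoImplicit false

namespace Pool.Agent.U289.KT

open Finset Filter

open Classical in
/-- the number of the integers `n`, `1 ≤ n ≤ N`, such that for each `m = n, n + d, …, n + (l - 1) d` exactly
those of the numbers `q (m + h_j) + r` with `j ∈ J` are prime -/
noncomputable def starts (q : ℕ) (r : ℤ) {k : ℕ} (h : Fin k → ℤ) (J : Finset (Fin k)) (l d N : ℕ) : ℕ :=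
  ((Icc 1 N).filter (fun n : ℕ => ∀ i < l, ∀ j : Fin k,
    ((q : ℤ) * (((n + i * d : ℕ) : ℤ) + h j) + r).toNat.Prime ↔ j ∈ J)).card

/-- all the vectors in `𝓗` are good at common scales -/
def Good (q : ℕ) (r : ℤ) {k : ℕ} (𝓗 : Set (Fin k → ℤ)) : Prop :=
  ∀ l : ℕ, ∃ C : ℕ, ∃ᶠ N : ℕ in atTop, ∀ h ∈ 𝓗, ∀ J : Finset (Fin k),
    ∃ d : ℕ, 1 ≤ d ∧ (d : ℝ) ≤ (Real.log N) ^ C ∧
      (N : ℝ) / (Real.log N) ^ C ≤ (starts q r h J l d N : ℝ)

theorem starts_eq (q : ℕ) (r : ℤ) {k : ℕ} (h : Fin k → ℤ) (J : Finset (Fin k)) (l d N : ℕ) :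
    starts q r h J l d N = startsF (fun j => ((q : ℤ), r + q * h j)) J l d N := by
  unfold starts startsF
  congr 1
  refine filter_congr fun n _ => ?_
  have e : ∀ (m : ℕ) (j : Fin k), (q : ℤ) * ((m : ℤ) + h j) + r = (q : ℤ) * (m : ℤ) + (r + q * h j) := by
    intro m j; ring
  simp only [e]

/-- the columns are labelled forms -/
theorem shift_lab (q : ℕ) (r : ℤ) (hq : 1 ≤ q) (hqr : IsCoprime r (q : ℤ))
    (h : ℕ → ℕ → ℤ) (hinj : ∀ j a a', ∀ᶠ j' in atTop, h j' a' ≠ h j a)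
    (hadm : ∀ (R : Finset ℕ) (p : ℕ), p.Prime → p ≤ R.card → ¬ p ∣ q →
      ∀ᶠ j in atTop, ∃ c : ℤ, ∀ a ∈ R, ¬ (p : ℤ) ∣ h j a - c) :
    Lab (fun j a => ((q : ℤ), r + q * h j a)) := by
  classical
  have hq0 : (0 : ℤ) < q := by exact_mod_cast hq
  have hcop : ∀ x : ℤ, IsCoprime (q : ℤ) (r + q * x) := fun x => (IsCoprime.add_mul_left_left hqr x).symm
  refine ⟨fun a => Filter.Eventually.of_forall fun j => ⟨hq0, hcop _⟩, fun j a a' => ?_, fun Λ p hp => ?_⟩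
  · refine Nat.hyperfilter_le_atTop ?_
    filter_upwards [hinj j a a'] with j' hj' he
    have h1 : r + q * h j' a' = r + q * h j a := congrArg Prod.snd he
    exact hj' (mul_left_cancel₀ hq0.ne' (by linarith))
  · have hpp := Nat.prime_iff_prime_int.1 hp
    have hp0 : (0 : ℤ) < p := by exact_mod_cast hp.pos
    -- each column misses a residue
    have hcol : ∀ᶠ j in (U : Filter ℕ), ∃ ρ : ℤ, ∀ a ∈ Λ, ¬ (p : ℤ) ∣ (q : ℤ) * ρ + (r + q * h j a) := by
      rcases Nat.lt_or_ge Λ.card p with hlt | hge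
      · refine Filter.Eventually.of_forall fun j => ?_
        obtain ⟨ρ, hρ⟩ := exists_miss hp hlt (fun i => ((q : ℤ), r + q * h j (Λ.equivFin.symm i)))
          (fun i => hcop _)
        refine ⟨ρ, fun a ha => ?_⟩
        have h1 := hρ (Λ.equivFin ⟨a, ha⟩)
        simpa using h1
      · by_cases hpq : p ∣ q
        · have hpqz : (p : ℤ) ∣ q := by exact_mod_cast hpq
          refine Filter.Eventually.of_forall fun j => ⟨0, fun a _ hd => ?_⟩
          have h2 : (p : ℤ) ∣ (q : ℤ) * h j a := Dvd.dvd.mul_right hpqz _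
          have e : (q : ℤ) * 0 + (r + q * h j a) = r + q * h j a := by ring
          rw [e] at hd
          exact hpp.not_isUnit (hqr.isUnit_of_dvd' ((dvd_add_left h2).1 hd) hpqz)
        · refine Nat.hyperfilter_le_atTop ?_
          filter_upwards [hadm Λ p hp hge hpq] with j hj
          obtain ⟨c, hc⟩ := hj
          have hpqz : ¬ (p : ℤ) ∣ q := fun h => hpq (by exact_mod_cast h)
          have hcop : IsCoprime (q : ℤ) (p : ℤ) :=
            (isCoprime_comm.1 ((Prime.coprime_iff_not_dvd hpp).2 hpqz))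
          obtain ⟨u, w, huw⟩ := hcop
          refine ⟨u * (- r) - c, fun i hi hd => hc i hi ?_⟩
          have e1 : (q : ℤ) * (u * (- r) - c) + (r + q * h j i) = q * (h j i - c) + (w * r) * p := by
            linear_combination (-r) * huw
          rw [e1] at hd
          have h2 : (p : ℤ) ∣ q * (h j i - c) := (dvd_add_left (Dvd.intro_left _ rfl)).1 hd
          exact (hpp.dvd_or_dvd h2).resolve_left hpqz
    -- one residue
    obtain ⟨a, ha⟩ := choose_one (α := Fin p)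
      (fun c j => ∀ a ∈ Λ, ¬ (p : ℤ) ∣ (q : ℤ) * ((c : ℕ) : ℤ) + (r + q * h j a)) (by
      filter_upwards [hcol] with j hj
      obtain ⟨ρ, hρ⟩ := hj
      have h2 : 0 ≤ ρ % p := Int.emod_nonneg _ hp0.ne'
      have h3 : ρ % p < p := Int.emod_lt_of_pos _ hp0
      refine ⟨⟨(ρ % p).toNat, by omega⟩, fun i hi hd => hρ i hi ?_⟩
      simp only at hd
      rw [Int.toNat_of_nonneg h2] at hd
      have h4 : (p : ℤ) ∣ (q : ℤ) * (ρ - ρ % p) := Dvd.dvd.mul_left (Int.dvd_self_sub_emod) _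
      have h5 := dvd_add hd h4
      have e : (q : ℤ) * (ρ % p) + (r + q * h j i) + (q : ℤ) * (ρ - ρ % p) = (q : ℤ) * ρ + (r + q * h j i) := by
        ring
      rwa [e] at h5)
    exact ⟨((a : ℕ) : ℤ), ha⟩

/-- **the theorem for shifts** -/
theorem mainS (q : ℕ) (r : ℤ) (hq : 1 ≤ q) (hqr : IsCoprime r (q : ℤ))
    (h : ℕ → ℕ → ℤ) (hinj : ∀ j a a', ∀ᶠ j' in atTop, h j' a' ≠ h j a)
    (hadm : ∀ (R : Finset ℕ) (p : ℕ), p.Prime → p ≤ R.card → ¬ p ∣ q →
      ∀ᶠ j in atTop, ∃ c : ℤ, ∀ a ∈ R, ¬ (p : ℤ) ∣ h j a - c)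
    (W : ℕ → Finset ℕ) (hW : ∀ t, (W t).Nonempty) (ε : ℝ) (hε : 0 < ε) :
    ∃ (S : Set ℕ) (J : ℕ → ℕ),
      (∃ᶠ t in atTop, (5 / 18 - ε) * ((W t).card : ℝ) ≤ (((W t : Set ℕ) ∩ S).ncard : ℝ)) ∧ StrictMono J ∧
      ∀ (k m : ℕ) (i : Fin k → ℕ), StrictMono i → (∀ t, k ≤ i t ∧ m ≤ i t) →
        Good q r {v : Fin k → ℤ | ∃ s : Fin k → ℕ, (∀ t, s t ∈ S ∧ s t ≤ m) ∧ ∀ t, v t = h (J (i t)) (s t)} := by
  classical
  have hlab := shift_lab q r hq hqr h hinj hadm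
  obtain ⟨S, hS, hWS⟩ := free_windows hlab W hW ε hε
  obtain ⟨jj, hjj, hg⟩ := extract hlab hS (fun n => range (n + 1))
  refine ⟨S, jj, hWS.mono fun t ht => ?_, hjj, fun k m i hi hkm l => ?_⟩
  · have e : (W t : Set ℕ) ∩ S = ((W t).filter (fun a => a ∈ S) : Finset ℕ) := by
      ext a
      simp only [Set.mem_inter_iff, mem_coe, mem_filter]
    rw [e, Set.ncard_coe_finset]
    convert ht
  · obtain ⟨C, hC⟩ := hg ((range (m + 1)).filter (fun a => a ∈ S)) (fun a ha => (mem_filter.1 ha).2) k i hi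
      (fun t => ⟨(hkm t).1, (filter_subset _ _).trans (range_mono (by have := (hkm t).2; omega))⟩) l
    refine ⟨C, hC.mono fun N hN v hv Jf => ?_⟩
    obtain ⟨s, hs, hv⟩ := hv
    obtain ⟨d, hd1, hd2, hd3⟩ := hN (fun t => ((q : ℤ), r + q * v t))
      ⟨s, fun t => mem_filter.2 ⟨mem_range.2 (by have := (hs t).2; omega), (hs t).1⟩,
        fun t => by simp only [hv t]⟩ Jf
    refine ⟨d, hd1, hd2, ?_⟩
    rw [starts_eq]
    exact hd3

end Pool.Agent.U289.KT
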