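import Pool.Agent.U289.KT.Windows

/-! Lines through common points in all directions of a large set of slopes. -/

set_option autoImplicit false

namespace Pool.Agent.U289.KT

open Finset Filter

open Classical in
/-- the number of the integers `n`, `1 ≤ n ≤ N`, such that for each `m = n, n + d, …, n + (l - 1) d` exactly
those of the numbers `a_t m + u_t` with `t ∈ J` are prime -/
noncomputable def startsN {k : ℕ} (a u : Fin k → ℕ) (J : Finset (Fin k)) (l d N : ℕ) : ℕ :=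
  ((Icc 1 N).filter (fun n : ℕ => ∀ i < l, ∀ t : Fin k, (a t * (n + i * d) + u t).Prime ↔ t ∈ J)).card

theorem startsN_eq {k : ℕ} (a u : Fin k → ℕ) (J : Finset (Fin k)) (l d N : ℕ) :
    startsN a u J l d N = startsF (fun t => ((a t : ℤ), (u t : ℤ))) J l d N := by
  unfold startsN startsF
  refine congrArg Finset.card (filter_congr fun n _ => ?_)
  have e : ∀ (m : ℕ) (t : Fin k), ((a t : ℤ) * (m : ℤ) + (u t : ℤ)).toNat = a t * m + u t := by
    intro m t
    have : (a t : ℤ) * (m : ℤ) + (u t : ℤ) = ((a t * m + u t : ℕ) : ℤ) := by push_cast; ring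
    rw [this, Int.toNat_natCast]
  simp only [e]

/-- lacunary sequences in `X` which are `1` modulo everything -/
theorem exists_one (X : Set ℕ) (hX : ∀ Q B : ℕ, 1 ≤ Q → ∃ x ∈ X, B ≤ x ∧ x ≡ 1 [MOD Q]) :
    ∃ w : ℕ → ℕ, (∀ n, w n ∈ X) ∧ (∀ n, 1 ≤ w n) ∧ (∀ n, w n ≡ 1 [MOD n.factorial]) ∧
      ∀ n, (n + 2) * w n ≤ w (n + 1) := by
  choose f hf1 hf2 hf3 using hX
  set w : ℕ → ℕ := fun n => Nat.rec (f 1 1 le_rfl)
    (fun n y => f ((n + 1).factorial) ((n + 2) * y + 1) (Nat.factorial_pos _)) n with hw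
  have hs : ∀ n, w (n + 1) = f ((n + 1).factorial) ((n + 2) * (w n) + 1) (Nat.factorial_pos _) :=
    fun n => rfl
  have hz : w 0 = f 1 1 le_rfl := rfl
  refine ⟨w, fun n => ?_, fun n => ?_, fun n => ?_, fun n => ?_⟩
  · cases n with
    | zero => rw [hz]; exact hf1 _ _ _
    | succ n => rw [hs]; exact hf1 _ _ _
  · cases n with
    | zero => rw [hz]; exact hf2 1 1 le_rfl
    | succ n =>
      rw [hs]
      refine le_trans ?_ (hf2 _ _ _)
      omega
  · cases n with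
    | zero => rw [Nat.factorial_zero]; exact Nat.modEq_one
    | succ n => rw [hs]; exact hf3 _ _ _
  · rw [hs n]
    refine le_trans ?_ (hf2 _ _ _)
    omega

/-- the columns of the forms with all slopes -/
def sl (w : ℕ → ℕ) (j : ℕ) (a : ℕ) : ℤ × ℤ := (((max a 1 : ℕ) : ℤ), (w j : ℤ))

theorem sl_lab {w : ℕ → ℕ} (h2 : ∀ n, 1 ≤ w n) (h3 : ∀ n, w n ≡ 1 [MOD n.factorial])
    (h4 : ∀ n, (n + 2) * w n ≤ w (n + 1)) : Lab (sl w) := by
  have hmono : StrictMono w := strictMono_nat_of_lt_succ fun n => by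
    have := h2 n; have := h4 n; nlinarith
  have hone : ∀ {m j : ℕ}, 1 ≤ m → m ≤ j → w j ≡ 1 [MOD m] := fun {m j} hm hj =>
    (h3 j).of_dvd (Nat.dvd_factorial hm hj)
  refine ⟨fun a => ?_, fun j a a' => ?_, fun Λ p hp => ⟨0, ?_⟩⟩
  · filter_upwards [ev_ge (max a 1)] with j hj
    have h5 : 1 ≤ max a 1 := le_max_right _ _
    refine ⟨by show (0 : ℤ) < ((max a 1 : ℕ) : ℤ); exact_mod_cast h5, ?_⟩
    show IsCoprime (((max a 1 : ℕ) : ℤ)) ((w j : ℕ) : ℤ)
    rw [Nat.isCoprime_iff_coprime]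
    have h6 := (hone h5 hj).gcd_eq
    rw [Nat.gcd_one_left] at h6
    rw [Nat.coprime_comm]
    exact h6
  · filter_upwards [ev_ge (j + 1)] with j' hj' h
    have h5 : ((w j' : ℕ) : ℤ) = w j := congrArg Prod.snd h
    have h6 : w j' = w j := by exact_mod_cast h5
    have := hmono.injective h6
    omega
  · filter_upwards [ev_ge p] with j hj a _ hd
    have h5 : (p : ℤ) ∣ ((w j : ℕ) : ℤ) := by
      have e : (sl w j a).1 * 0 + (sl w j a).2 = (w j : ℤ) := by simp only [sl]; ring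
      rwa [e] at hd
    have h6 : p ∣ w j := by exact_mod_cast h5
    have h7 := (hone hp.pos hj)
    have h8 : p ∣ 1 := (h7.dvd_iff (dvd_refl p)).1 h6
    exact hp.one_lt.ne' (Nat.dvd_one.1 h8)

/-- **lines through common points** -/
theorem slopes (ε : ℝ) (hε : 0 < ε) (X : Set ℕ)
    (hX : ∀ Q B : ℕ, 1 ≤ Q → ∃ x ∈ X, B ≤ x ∧ x ≡ 1 [MOD Q])
    (W : ℕ → Finset ℕ) (hW : ∀ t, (W t).Nonempty) (hW0 : ∀ t, 0 ∉ W t) :
    ∃ (S : Set ℕ) (u : ℕ → ℕ), (∀ a ∈ S, 1 ≤ a) ∧
      (∃ᶠ t in atTop, (5 / 18 - ε) * ((W t).card : ℝ) ≤ (((W t : Set ℕ) ∩ S).ncard : ℝ)) ∧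
      (∀ n, u n ∈ X ∧ 1 ≤ u n ∧ u n ≡ 1 [MOD n.factorial] ∧ (n + 2) * u n ≤ u (n + 1)) ∧
      ∀ (k m : ℕ) (i : Fin k → ℕ), StrictMono i → (∀ t, k ≤ i t ∧ m ≤ i t) →
        ∀ l : ℕ, ∃ C : ℕ, ∃ᶠ N : ℕ in atTop, ∀ a : Fin k → ℕ, (∀ t, a t ∈ S ∧ a t ≤ m) →
          ∀ J : Finset (Fin k), ∃ d : ℕ, 1 ≤ d ∧ (d : ℝ) ≤ (Real.log N) ^ C ∧
            (N : ℝ) / (Real.log N) ^ C ≤ (startsN a (fun t => u (i t)) J l d N : ℝ) := by
  classical
  obtain ⟨w, hwX, hw1, hw2, hw3⟩ := exists_one X hX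
  have hlab := sl_lab hw1 hw2 hw3
  obtain ⟨S, hS, hWS⟩ := free_windows hlab W hW ε hε
  obtain ⟨jj, hjj, hg⟩ := extract hlab hS (fun n => range (n + 1))
  have hmono : Monotone w := monotone_nat_of_le_succ fun n => by
    have := hw1 n; have := hw3 n; nlinarith
  refine ⟨S \ {0}, fun n => w (jj n), ?_, ?_, ?_, ?_⟩
  · rintro a ⟨-, ha⟩
    exact Nat.one_le_iff_ne_zero.2 ha
  · refine hWS.mono fun t ht => ?_
    have e : (W t : Set ℕ) ∩ (S \ {0}) = ((W t).filter (fun a => a ∈ S) : Finset ℕ) := by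
      ext a
      simp only [Set.mem_inter_iff, mem_coe, Set.mem_sdiff, Set.mem_singleton_iff, mem_filter]
      constructor
      · rintro ⟨h1, h2, -⟩
        exact ⟨h1, h2⟩
      · rintro ⟨h1, h2⟩
        exact ⟨h1, h2, fun h => hW0 t (h ▸ h1)⟩
    rw [e, Set.ncard_coe_finset]
    convert ht
  · intro n
    have h5 : n ≤ jj n := hjj.le_apply
    refine ⟨hwX _, hw1 _, (hw2 (jj n)).of_dvd (Nat.factorial_dvd_factorial h5), ?_⟩
    calc (n + 2) * w (jj n) ≤ (jj n + 2) * w (jj n) := Nat.mul_le_mul_right _ (by omega)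
      _ ≤ w (jj n + 1) := hw3 _
      _ ≤ w (jj (n + 1)) := hmono (hjj (Nat.lt_succ_self n))
  · intro k m i hi hkm l
    obtain ⟨C, hC⟩ := hg ((range (m + 1)).filter (fun a => a ∈ S)) (fun a ha => (mem_filter.1 ha).2) k i hi
      (fun t => ⟨(hkm t).1, (filter_subset _ _).trans (range_mono (by have := (hkm t).2; omega))⟩) l
    refine ⟨C, hC.mono fun N hN a ha J => ?_⟩
    obtain ⟨d, hd1, hd2, hd3⟩ := hN (fun t => ((a t : ℤ), (w (jj (i t)) : ℤ)))
      ⟨a, fun t => mem_filter.2 ⟨mem_range.2 (by have := (ha t).2; omega), (ha t).1.1⟩, fun t => by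
        have h1 : 1 ≤ a t := Nat.one_le_iff_ne_zero.2 (ha t).1.2
        simp only [sl, max_eq_left h1]⟩ J
    refine ⟨d, hd1, hd2, ?_⟩
    rw [startsN_eq]
    exact hd3

/-- the hypotheses of the question -/
def Adm (a b : ℕ) (c : ℤ) : Prop :=
  1 ≤ a ∧ 1 ≤ b ∧ c ≠ 0 ∧ IsCoprime (a : ℤ) b ∧ IsCoprime (a : ℤ) c ∧ IsCoprime (b : ℤ) c ∧
    ¬ (Odd a ∧ Odd b ∧ Odd c)

/-- the equations -/
theorem pairs {S : Set ℕ} {u : ℕ → ℕ} (hu : ∀ n, 1 ≤ u n ∧ u n ≡ 1 [MOD n.factorial] ∧ (n + 2) * u n ≤ u (n + 1))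
    (h : ∀ (k m : ℕ) (i : Fin k → ℕ), StrictMono i → (∀ t, k ≤ i t ∧ m ≤ i t) →
        ∀ l : ℕ, ∃ C : ℕ, ∃ᶠ N : ℕ in atTop, ∀ a : Fin k → ℕ, (∀ t, a t ∈ S ∧ a t ≤ m) →
          ∀ J : Finset (Fin k), ∃ d : ℕ, 1 ≤ d ∧ (d : ℝ) ≤ (Real.log N) ^ C ∧
            (N : ℝ) / (Real.log N) ^ C ≤ (startsN a (fun t => u (i t)) J l d N : ℝ))
    (g a b : ℕ) (ha : g * a ∈ S) (hb : g * b ∈ S) (ha1 : 1 ≤ g * a) (hb1 : 1 ≤ g * b)
    (hab : Nat.Coprime a b) (i j : ℕ) (hij : i < j)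
    (h2 : 2 ≤ i) (hai : g * a ≤ i) (hbi : g * b ≤ i) :
    Adm a b ((a : ℤ) * u j - b * u i) ∧
      {x : ℕ × ℕ | x.1.Prime ∧ x.2.Prime ∧ (a : ℤ) * x.1 - b * x.2 = (a : ℤ) * u j - b * u i}.Infinite := by
  classical
  have hg0 : 0 < g := Nat.pos_of_ne_zero (by rintro rfl; omega)
  have ha0 : 0 < a := Nat.pos_of_ne_zero (by rintro rfl; omega)
  have hb0 : 0 < b := Nat.pos_of_ne_zero (by rintro rfl; omega)
  have hai' : a ≤ i := le_trans (Nat.le_mul_of_pos_left a hg0) hai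
  have hbi' : b ≤ i := le_trans (Nat.le_mul_of_pos_left b hg0) hbi
  have hmono : Monotone u := monotone_nat_of_le_succ fun n => by
    have := (hu n).1; have := (hu n).2.2; nlinarith
  have hone : ∀ {m n : ℕ}, 1 ≤ m → m ≤ n → u n ≡ 1 [MOD m] := fun {m n} hm hn =>
    (hu n).2.1.of_dvd (Nat.dvd_factorial hm hn)
  have hcop : ∀ {m n : ℕ}, 1 ≤ m → m ≤ n → IsCoprime (m : ℤ) (u n : ℤ) := fun {m n} hm hn => by
    rw [Nat.isCoprime_iff_coprime, Nat.coprime_comm]
    have h6 := (hone hm hn).gcd_eq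
    rw [Nat.gcd_one_left] at h6
    exact h6
  have habz : IsCoprime (a : ℤ) (b : ℤ) := by
    rw [Nat.isCoprime_iff_coprime]
    exact hab
  have hlt : b * u i < a * u j := by
    have h5 := (hu i).2.2
    have h6 := hmono hij
    have h7 := (hu i).1
    have h8 : b * u i < (i + 2) * u i := Nat.mul_lt_mul_of_pos_right (by omega) h7
    calc b * u i < (i + 2) * u i := h8
      _ ≤ u (i + 1) := h5
      _ ≤ u j := h6
      _ ≤ a * u j := Nat.le_mul_of_pos_left _ ha0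
  refine ⟨⟨ha0, hb0, ?_, habz, ?_, ?_, ?_⟩, ?_⟩
  · have : (b : ℤ) * u i < a * u j := by exact_mod_cast hlt
    omega
  · have h5 : IsCoprime (a : ℤ) (-(b * u i : ℤ)) := (habz.mul_right (hcop ha0 hai')).neg_right
    have e : (a : ℤ) * u j - b * u i = -(b * u i : ℤ) + a * u j := by ring
    rw [e]
    exact IsCoprime.add_mul_left_right h5 _
  · have h5 : IsCoprime (b : ℤ) ((a * u j : ℤ)) := habz.symm.mul_right (hcop hb0 (by omega))
    have e : (a : ℤ) * u j - b * u i = (a * u j : ℤ) + b * (-u i) := by ring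
    rw [e]
    exact IsCoprime.add_mul_left_right h5 _
  · rintro ⟨h5, h6, h7⟩
    have hodd : ∀ n, 2 ≤ n → Odd ((u n : ℕ) : ℤ) := by
      intro n hn
      have h8 := hone (m := 2) (by norm_num) hn
      rw [Int.odd_coe_nat, Nat.odd_iff]
      exact h8
    have h8 : Odd ((a : ℤ) * u j) := ((Int.odd_coe_nat a).2 h5).mul (hodd j (by omega))
    have h9 : Odd ((b : ℤ) * u i) := ((Int.odd_coe_nat b).2 h6).mul (hodd i h2)
    have h10 := h8.sub_odd h9
    exact (Int.not_odd_iff_even.2 h10) h7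
  · -- the prime points
    obtain ⟨C, hC⟩ := h 2 (max (g * a) (g * b)) ![i, j] (by
      intro x y hxy
      fin_cases x <;> fin_cases y <;> simp_all) (by
      intro t
      fin_cases t
      · exact ⟨h2, max_le hai hbi⟩
      · exact ⟨by show 2 ≤ j; omega, by show max (g * a) (g * b) ≤ j; exact max_le (by omega) (by omega)⟩) 1
    have hinf : {n : ℕ | (g * a * n + u i).Prime ∧ (g * b * n + u j).Prime}.Infinite := by
      intro hfin
      have hev : ∀ᶠ N : ℕ in atTop, ¬ ∀ x : Fin 2 → ℕ, (∀ t, x t ∈ S ∧ x t ≤ max (g * a) (g * b)) →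
          ∀ J : Finset (Fin 2), ∃ d : ℕ, 1 ≤ d ∧ (d : ℝ) ≤ (Real.log N) ^ C ∧
            (N : ℝ) / (Real.log N) ^ C ≤ (startsN x (fun t => u (![i, j] t)) J 1 d N : ℝ) := by
        have h5 : Tendsto (fun N : ℕ => (N : ℝ) / (Real.log N) ^ C) atTop atTop := by
          have h6 : Tendsto (fun x : ℝ => x / (Real.log x) ^ C) atTop atTop := by
            have h7 : Tendsto (fun x : ℝ => (Real.log x) ^ C / x) atTop (nhds 0) :=
              (Real.isLittleO_pow_log_id_atTop (n := C)).tendsto_div_nhds_zero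
            have h8 : Tendsto (fun x : ℝ => (Real.log x) ^ C / x) atTop (nhdsWithin 0 (Set.Ioi 0)) := by
              refine tendsto_nhdsWithin_iff.2 ⟨h7, ?_⟩
              filter_upwards [eventually_gt_atTop 1] with x hx
              exact div_pos (pow_pos (Real.log_pos hx) _) (by linarith)
            have h9 := h8.inv_tendsto_nhdsGT_zero
            refine h9.congr fun x => ?_
            simp only [Pi.inv_apply, inv_div]
          exact h6.comp tendsto_natCast_atTop_atTop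
        filter_upwards [h5.eventually_gt_atTop ((hfin.toFinset.card : ℕ) : ℝ)] with N hN hcon
        obtain ⟨d, -, -, h6⟩ := hcon ![g * a, g * b] (by
          intro t
          fin_cases t
          · exact ⟨ha, le_max_left _ _⟩
          · exact ⟨hb, le_max_right _ _⟩) univ
        have h7 : startsN ![g * a, g * b] (fun t => u (![i, j] t)) univ 1 d N ≤ hfin.toFinset.card := by
          unfold startsN
          refine card_le_card fun n hn => ?_
          rw [mem_filter] at hn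
          rw [Set.Finite.mem_toFinset]
          have h8 := hn.2 0 one_pos
          have h9 := (h8 0).2 (mem_univ _)
          have h10 := (h8 1).2 (mem_univ _)
          simp only [zero_mul, add_zero] at h9 h10
          exact ⟨h9, h10⟩
        have h8 : (startsN ![g * a, g * b] (fun t => u (![i, j] t)) univ 1 d N : ℝ) ≤ hfin.toFinset.card := by
          exact_mod_cast h7
        linarith
      obtain ⟨N, hN1, hN2⟩ := (hC.and_eventually hev).exists
      exact hN2 hN1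
    have hinj : Set.InjOn (fun n : ℕ => (g * b * n + u j, g * a * n + u i))
        {n : ℕ | (g * a * n + u i).Prime ∧ (g * b * n + u j).Prime} := by
      intro n _ n' _ he
      have h5 : g * a * n + u i = g * a * n' + u i := congrArg Prod.snd he
      exact Nat.eq_of_mul_eq_mul_left ha1 (by omega)
    refine (hinf.image hinj).mono ?_
    rintro _ ⟨n, ⟨hn1, hn2⟩, rfl⟩
    refine ⟨hn2, hn1, ?_⟩
    push_cast
    ring

end Pool.Agent.U289.KT
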