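import Pool.Agent.U289.KT.Free

/-! From free sets of labels to one infinite sequence all of whose finite choices are good. -/

set_option autoImplicit false

namespace Pool.Agent.U289.KT

open Finset Filter
open Pool.Agent.Y827.HN

open Classical in
/-- the number of the integers `n`, `1 ≤ n ≤ N`, such that for each `m = n, n + d, …, n + (l - 1) d` exactly
those of the numbers `(f_j).1 m + (f_j).2` with `j ∈ J` are prime -/
noncomputable def startsF {k : ℕ} (f : Fin k → ℤ × ℤ) (J : Finset (Fin k)) (l d N : ℕ) : ℕ :=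
  ((Icc 1 N).filter (fun n : ℕ => ∀ i < l, ∀ j : Fin k,
    ((f j).1 * ((n + i * d : ℕ) : ℤ) + (f j).2).toNat.Prime ↔ j ∈ J)).card

/-- the systems of linear forms in `𝓕` are good at common scales -/
def GoodF {k : ℕ} (𝓕 : Set (Fin k → ℤ × ℤ)) : Prop :=
  ∀ l : ℕ, ∃ C : ℕ, ∃ᶠ N : ℕ in atTop, ∀ f ∈ 𝓕, ∀ J : Finset (Fin k),
    ∃ d : ℕ, 1 ≤ d ∧ (d : ℝ) ≤ (Real.log N) ^ C ∧
      (N : ℝ) / (Real.log N) ^ C ≤ (startsF f J l d N : ℝ)

/-- one system -/
theorem pattern_of_G {k : ℕ} {t : Fin k → ℤ × ℤ} (ht : Function.Injective t)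
    {l C N : ℕ} (h : AllP ∅ l C N (univ.image t)) (J : Finset (Fin k)) :
    ∃ d : ℕ, 1 ≤ d ∧ (d : ℝ) ≤ (Real.log N) ^ C ∧
      (N : ℝ) / (Real.log N) ^ C ≤ (startsF t J l d N : ℝ) := by
  classical
  obtain ⟨d, hd1, hd2, hd3⟩ := h (J.image t) (image_subset_image (subset_univ _))
  refine ⟨d, hd1, hd2, hd3.trans ?_⟩
  unfold cntX startsF
  have hsub : (Icc (l + 1) N).filter (fun n : ℕ => ∀ j < l,
      (∀ f ∈ J.image t, (f.1 * ((n + j * d : ℕ) : ℤ) + f.2).toNat.Prime) ∧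
      ∀ f ∈ (univ.image t \ J.image t) ∪ ∅,
        ¬ (f.1 * ((n + j * d : ℕ) : ℤ) + f.2).toNat.Prime) ⊆
      (Icc 1 N).filter (fun n : ℕ => ∀ i < l, ∀ j : Fin k,
        ((t j).1 * ((n + i * d : ℕ) : ℤ) + (t j).2).toNat.Prime ↔ j ∈ J) := by
    intro n hn
    rw [mem_filter, mem_Icc] at hn
    rw [mem_filter, mem_Icc]
    refine ⟨⟨by omega, hn.1.2⟩, fun i hi j => ?_⟩
    obtain ⟨h1, h2⟩ := hn.2 i hi
    constructor
    · intro hp
      by_contra hj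
      refine h2 (t j) (mem_union_left _ (Finset.mem_sdiff.2
        ⟨mem_image_of_mem _ (mem_univ _), fun hm => hj ?_⟩)) hp
      obtain ⟨j', hj', hy2⟩ := mem_image.1 hm
      rwa [← ht hy2]
    · intro hj
      exact h1 _ (mem_image_of_mem _ hj)
  have := card_le_card hsub
  exact_mod_cast this

/-- **free sets of labels give one infinite sequence of columns** -/
theorem extract {A : Type} [DecidableEq A] {F : ℕ → A → ℤ × ℤ} (hF : Lab F) {S : Set A} (hS : Free F S)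
    (Λ : ℕ → Finset A) :
    ∃ jj : ℕ → ℕ, StrictMono jj ∧ ∀ (T : Finset A), (∀ a ∈ T, a ∈ S) → ∀ (k : ℕ) (i : Fin k → ℕ),
      StrictMono i → (∀ t, k ≤ i t ∧ T ⊆ Λ (i t)) →
      GoodF {f : Fin k → ℤ × ℤ | ∃ s : Fin k → A, (∀ t, s t ∈ T) ∧ ∀ t, f t = F (jj (i t)) (s t)} := by
  classical
  obtain ⟨j0, hj0, hjP, hJ⟩ := real G F Λ
    (fun m f j => ∀ i : Fin m, ∀ a ∈ Λ m, ∀ a' ∈ Λ m, F j a' ≠ F (f i) a) (by
    intro m f
    refine Filter.eventually_all.2 fun i => ?_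
    rw [Filter.eventually_all_finset]
    intro a _
    rw [Filter.eventually_all_finset]
    intro a' _
    exact hF.inj _ a a')
  refine ⟨j0, hj0, fun T hTS k i hi hki l => ?_⟩
  have hinj : ∀ s : Fin k → A, (∀ t, s t ∈ T) → Function.Injective (fun t => F (j0 (i t)) (s t)) := by
    intro s hs a b hab
    rcases lt_trichotomy a b with h | h | h
    · exact absurd hab.symm (hjP (i b) ⟨i a, hi h⟩ _ ((hki b).2 (hs a)) _ ((hki b).2 (hs b)))
    · exact h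
    · exact absurd hab (hjP (i a) ⟨i b, hi h⟩ _ ((hki a).2 (hs b)) _ ((hki a).2 (hs a)))
  have hG : ∀ s : Fin k → A, (∀ t, s t ∈ T) → G (univ.image (fun t => F (j0 (i t)) (s t))) := by
    intro s hs
    have h1 := hJ (List.ofFn (fun t : Fin k => (i t, s t))) (by
      rw [List.pairwise_ofFn]
      intro a b hab
      exact hi hab) (by
      intro y hy
      rw [List.mem_ofFn] at hy
      obtain ⟨t, rfl⟩ := hy
      rw [List.length_ofFn]
      refine ⟨(hki t).1, fun z hz => ?_⟩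
      rw [List.mem_ofFn] at hz
      obtain ⟨t', rfl⟩ := hz
      exact (hki t).2 (hs t'))
    have h2 := hS (List.ofFn s) (by
      intro a ha
      rw [List.mem_ofFn] at ha
      obtain ⟨t, rfl⟩ := ha
      exact hTS _ (hs t))
    have h3 : (List.ofFn (fun t : Fin k => (i t, s t))).map Prod.snd = List.ofFn s := by
      rw [List.map_ofFn]
      rfl
    rw [h3] at h1
    have h4 := h1.2 h2
    refine G_anti ?_ h4
    intro y hy
    obtain ⟨t, -, rfl⟩ := mem_image.1 hy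
    rw [List.mem_toFinset, List.mem_map]
    exact ⟨(i t, s t), List.mem_ofFn.2 ⟨t, rfl⟩, rfl⟩
  -- the constants
  have h1 : ∀ s : Fin k → T, ∃ C : ℕ, ∀ᶠ N in (U : Filter ℕ),
      AllP ∅ l C N (univ.image (fun t => F (j0 (i t)) (s t : A))) := fun s =>
    hG (fun t => (s t : A)) (fun t => (s t).2) l
  choose C hC using h1
  obtain ⟨Cm, hCm⟩ : ∃ Cm, ∀ s, C s ≤ Cm :=
    ⟨univ.sup C, fun s => Finset.le_sup (f := C) (mem_univ s)⟩
  have h2 : ∀ᶠ N in (U : Filter ℕ), ∀ s : Fin k → T,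
      AllP ∅ l (C s) N (univ.image (fun t => F (j0 (i t)) (s t : A))) :=
    Filter.eventually_all.2 hC
  have h3 : ∀ᶠ N : ℕ in (U : Filter ℕ), ∀ f ∈ {f : Fin k → ℤ × ℤ | ∃ s : Fin k → A,
      (∀ t, s t ∈ T) ∧ ∀ t, f t = F (j0 (i t)) (s t)},
      ∀ J : Finset (Fin k), ∃ d : ℕ, 1 ≤ d ∧ (d : ℝ) ≤ (Real.log N) ^ Cm ∧
        (N : ℝ) / (Real.log N) ^ Cm ≤ (startsF f J l d N : ℝ) := by
    filter_upwards [h2, ev_ge 3] with N hN hN3 f hf J
    obtain ⟨s, hs, hf⟩ := hf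
    have hfe : f = fun t => F (j0 (i t)) (s t) := by funext t; exact hf t
    rw [hfe]
    exact pattern_of_G (hinj s hs) (AllP_mono hN3 (hCm _) (hN (fun t => ⟨s t, hs t⟩))) J
  exact ⟨Cm, h3.frequently.filter_mono Nat.hyperfilter_le_atTop⟩

/-- **the theorem for linear forms** -/
theorem main {n : ℕ} (hn : 1 ≤ n) {F : ℕ → Fin n → ℤ × ℤ} (hF : Cols F) :
    ∃ (S : Finset (Fin n)) (jj : ℕ → ℕ), 5 * n ≤ 18 * S.card ∧ StrictMono jj ∧
      ∀ (k : ℕ) (i : Fin k → ℕ), StrictMono i → (∀ t, k ≤ i t) →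
      GoodF {f : Fin k → ℤ × ℤ | ∃ s : Fin k → Fin n, (∀ t, s t ∈ S) ∧ ∀ t, f t = F (jj (i t)) (s t)} := by
  obtain ⟨m, hm1, hm2⟩ : ∃ m : ℕ, 18 * m < 5 * n ∧ 5 * n ≤ 18 * (m + 1) := ⟨(5 * n - 1) / 18, by omega, by omega⟩
  obtain ⟨I, hI, hfree⟩ := free_sub hF.lab n m hm1 id
  obtain ⟨jj, h1, h2⟩ := extract hF.lab hfree (fun _ => univ)
  exact ⟨I, jj, by rw [hI]; exact hm2, h1, fun k i hi hki =>
    h2 I (fun a ha => ⟨a, ha, rfl⟩) k i hi (fun t => ⟨hki t, subset_univ _⟩)⟩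

end Pool.Agent.U289.KT
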