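import Mathlib

/-! Iterated limits along an ultrafilter of a property of finite sets, and their realisation by one infinite
sequence of indices. -/

set_option autoImplicit false

namespace Pool.Agent.U289.KT

open Finset Filter

/-- the ultrafilter -/
noncomputable def U : Ultrafilter ℕ := Filter.hyperfilter ℕ

theorem ev_ge (n : ℕ) : ∀ᶠ i in (U : Filter ℕ), n ≤ i :=
  Nat.hyperfilter_le_atTop (Filter.eventually_ge_atTop n)

variable {X A : Type} [DecidableEq X]

/-- the limit of the property `G` -/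
def L (G : Finset X → Prop) (pt : ℕ → A → X) : List A → Finset X → Prop
  | [], F => G F
  | a :: φ, F => ∀ᶠ j in (U : Filter ℕ), L G pt φ (insert (pt j a) F)

theorem finite_lists [DecidableEq A] (Λ : Finset A) (N : ℕ) :
    {φ : List A | φ.length ≤ N ∧ ∀ a ∈ φ, a ∈ Λ}.Finite := by
  have h1 : {l : List Λ | l.length ≤ N}.Finite := List.finite_length_le Λ N
  refine (h1.image (fun l => l.map Subtype.val)).subset ?_
  rintro φ ⟨hφ, hφ2⟩
  refine ⟨φ.attach.map (fun a => (⟨a.1, hφ2 a.1 a.2⟩ : Λ)), ?_, ?_⟩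
  · simpa using hφ
  · simp only [List.map_map]
    have : (Subtype.val ∘ fun a : {x // x ∈ φ} => (⟨a.1, hφ2 a.1 a.2⟩ : Λ)) = Subtype.val := by
      funext a; rfl
    rw [this]
    exact List.attach_map_subtype_val φ

/-- the sequence with the given choices -/
noncomputable def sq (c : (n : ℕ) → (Fin n → ℕ) → ℕ) : ℕ → ℕ
  | n => c n (fun i => sq c i.1)
termination_by n => n
decreasing_by exact i.2

/-- the points with old indices -/
def old [DecidableEq A] (Λ : Finset A) (pt : ℕ → A → X) (n : ℕ) (f : Fin n → ℕ) : Finset X :=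
  (univ.image f ×ˢ Λ).image (fun y => pt y.1 y.2)

/-- **realisation** -/
theorem real [DecidableEq A] (G : Finset X → Prop) (pt : ℕ → A → X) (Λ : ℕ → Finset A)
    (P : (n : ℕ) → (Fin n → ℕ) → ℕ → Prop) (hP : ∀ n f, ∀ᶠ j in (U : Filter ℕ), P n f j) :
    ∃ j : ℕ → ℕ, StrictMono j ∧ (∀ n, P n (fun i => j i) (j n)) ∧
      ∀ I : List (ℕ × A), I.Pairwise (fun x y => x.1 < y.1) →
      (∀ x ∈ I, I.length ≤ x.1 ∧ ∀ y ∈ I, y.2 ∈ Λ x.1) →
      (G ((I.map (fun x => pt (j x.1) x.2)).toFinset) ↔ L G pt (I.map Prod.snd) ∅) := by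
  classical
  have hev : ∀ (n : ℕ) (f : Fin n → ℕ), ∀ᶠ j in (U : Filter ℕ), ((∀ i, f i + 1 ≤ j) ∧ P n f j) ∧
      ∀ F ∈ (old (Λ n) pt n f).powerset, ∀ a ∈ Λ n,
        ∀ φ ∈ {φ : List A | φ.length ≤ n ∧ ∀ a ∈ φ, a ∈ Λ n},
        (L G pt φ (insert (pt j a) F) ↔ L G pt (a :: φ) F) := by
    intro n f
    refine ((Filter.eventually_all.2 fun i => ev_ge (f i + 1)).and (hP n f)).and ?_
    rw [Filter.eventually_all_finset]
    intro F _
    rw [Filter.eventually_all_finset]
    intro a _
    rw [Filter.eventually_all_finite (finite_lists (Λ n) n)]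
    intro φ _
    by_cases h : L G pt (a :: φ) F
    · have h1 := h
      unfold L at h1
      filter_upwards [h1] with j hj
      exact ⟨fun _ => h, fun _ => hj⟩
    · have h1 := h
      unfold L at h1
      rw [← Ultrafilter.eventually_not] at h1
      filter_upwards [h1] with j hj
      exact ⟨fun h2 => absurd h2 hj, fun h2 => absurd h2 h⟩
  choose c hc using fun n f => (hev n f).exists
  have hj : ∀ n, sq c n = c n (fun i => sq c i.1) := by
    intro n
    rw [sq]
  have hmono : StrictMono (sq c) := by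
    refine strictMono_nat_of_lt_succ fun n => ?_
    have h1 := (hc (n + 1) (fun i => sq c i.1)).1.1 ⟨n, Nat.lt_succ_self n⟩
    rw [← hj (n + 1)] at h1
    exact h1
  refine ⟨sq c, hmono, fun n => ?_, ?_⟩
  · have h1 := (hc n (fun i => sq c i.1)).1.2
    rw [← hj n] at h1
    exact h1
  -- the general statement with the points used before
  have key : ∀ (I I₀ : List (ℕ × A)), I.Pairwise (fun x y => x.1 < y.1) →
      (∀ x ∈ I, I.length ≤ x.1 ∧ ∀ y ∈ I, y.2 ∈ Λ x.1) →
      (∀ x ∈ I₀, ∀ y ∈ I, x.1 < y.1 ∧ x.2 ∈ Λ y.1) →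
      (G ((I₀.map (fun x => pt (sq c x.1) x.2)).toFinset ∪ (I.map (fun x => pt (sq c x.1) x.2)).toFinset) ↔
        L G pt (I.map Prod.snd) ((I₀.map (fun x => pt (sq c x.1) x.2)).toFinset)) := by
    intro I
    induction I with
    | nil =>
      intro I₀ _ _ _
      simp [L]
    | cons x I ih =>
      intro I₀ hI hI2 hI0
      rw [List.pairwise_cons] at hI
      obtain ⟨hx, hI'⟩ := hI
      have hx1 := hI2 x (List.mem_cons_self)
      rw [List.length_cons] at hx1
      have h1 := ih (x :: I₀) hI' (fun y hy => by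
        have := hI2 y (List.mem_cons_of_mem _ hy)
        rw [List.length_cons] at this
        exact ⟨by omega, fun z hz => this.2 z (List.mem_cons_of_mem _ hz)⟩) (by
        intro y hy z hz
        rcases List.mem_cons.1 hy with rfl | hy
        · exact ⟨hx z hz, (hI2 z (List.mem_cons_of_mem _ hz)).2 _ (List.mem_cons_self)⟩
        · exact hI0 y hy z (List.mem_cons_of_mem _ hz))
      have h2 := (hc x.1 (fun i => sq c i.1)).2 ((I₀.map (fun x => pt (sq c x.1) x.2)).toFinset) (by
        rw [mem_powerset]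
        intro y hy
        rw [List.mem_toFinset, List.mem_map] at hy
        obtain ⟨z, hz, rfl⟩ := hy
        obtain ⟨h4, h3⟩ := hI0 z hz x List.mem_cons_self
        exact mem_image.2 ⟨(sq c z.1, z.2), mk_mem_product
          (mem_image.2 ⟨⟨z.1, h4⟩, mem_univ _, rfl⟩) h3, rfl⟩) x.2
        (hx1.2 x List.mem_cons_self)
        (I.map Prod.snd) ⟨by rw [List.length_map]; omega, by
          intro a ha
          rw [List.mem_map] at ha
          obtain ⟨z, hz, rfl⟩ := ha
          exact hx1.2 z (List.mem_cons_of_mem _ hz)⟩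
      rw [← hj x.1] at h2
      rw [List.map_cons, List.toFinset_cons] at h1
      rw [List.map_cons, List.map_cons, ← h2, ← h1, List.toFinset_cons, insert_union, union_insert]
  intro I hI hI2
  have := key I [] hI hI2 (by simp)
  simpa using this

end Pool.Agent.U289.KT
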