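import Pool.Agent.Y827.HN.Pat
import Pool.Agent.U289.KT.Lim

/-! Free sets of labels with the proportion `5/18`, all patterns, narrow progressions, along one ultrafilter. -/

set_option autoImplicit false

namespace Pool.Agent.U289.KT

open Finset Filter
open Pool.Agent.Y827.HN

/-- the set `F` of linear forms has all the patterns at the scales of the ultrafilter -/
def G (F : Finset (ℤ × ℤ)) : Prop := ∀ l : ℕ, ∃ C : ℕ, ∀ᶠ N in (U : Filter ℕ), AllP ∅ l C N F

theorem G_anti {F F' : Finset (ℤ × ℤ)} (h : F' ⊆ F) (hF : G F) : G F' := by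
  intro l
  obtain ⟨C, hC⟩ := hF l
  refine ⟨C, ?_⟩
  filter_upwards [hC] with N hN
  exact AllP_anti h hN

/-- for a finite set of choices one choice works along the ultrafilter -/
theorem choose_one {α : Type} [Finite α] (P : α → ℕ → Prop) (h : ∀ᶠ N in (U : Filter ℕ), ∃ a, P a N) :
    ∃ a, ∀ᶠ N in (U : Filter ℕ), P a N := by
  by_contra hcon
  push Not at hcon
  have h1 : ∀ a, ∀ᶠ N in (U : Filter ℕ), ¬ P a N := fun a => hcon a
  have h2 : ∀ᶠ N in (U : Filter ℕ), ∀ a, ¬ P a N := Filter.eventually_all.2 h1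
  obtain ⟨N, ⟨a, ha⟩, hN⟩ := (h.and h2).exists
  exact hN a ha

/-- the coloured theorem along the ultrafilter -/
theorem hitG (T M : ℕ) (hT : 1 ≤ T) (hTM : (18 / 5 : ℝ) * M < T) : ∃ K : ℕ, 1 ≤ K ∧
    ∀ x : Fin T → Fin K → ℤ × ℤ,
    Function.Injective (fun y : Fin T × Fin K => x y.1 y.2) →
    (∀ g i, 0 < (x g i).1 ∧ IsCoprime (x g i).1 (x g i).2) →
    (∀ p : ℕ, p.Prime → p ≤ T * K → ∃ r : ℤ, ∀ g i, ¬ (p : ℤ) ∣ (x g i).1 * r + (x g i).2) →
    ∃ (S : Finset (Fin T)) (c : Fin T → Fin K), M + 1 ≤ S.card ∧ G (S.image (fun g => x g (c g))) := by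
  classical
  obtain ⟨K, hK, hpat⟩ := patR T M hT hTM
  refine ⟨K, hK, fun x hinj hpos hloc => ?_⟩
  have h := hpat x hinj hpos hloc ∅ (fun u hu => absurd hu (notMem_empty u))
  -- one choice for every length
  have h1 : ∀ l : ℕ, ∃ y : Finset (Fin T) × (Fin T → Fin K), M + 1 ≤ y.1.card ∧
      ∃ C : ℕ, ∀ᶠ N in (U : Filter ℕ), AllP ∅ l C N (y.1.image (fun g => x g (y.2 g))) := by
    intro l
    obtain ⟨C, hC⟩ := h l
    have h2 : ∀ᶠ N in (U : Filter ℕ), ∃ y : Finset (Fin T) × (Fin T → Fin K), M + 1 ≤ y.1.card ∧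
        AllP ∅ l C N (y.1.image (fun g => x g (y.2 g))) := by
      refine Nat.hyperfilter_le_atTop ?_
      filter_upwards [hC] with N hN
      obtain ⟨S, cc, h3, h4⟩ := hN
      exact ⟨(S, cc), h3, h4⟩
    obtain ⟨y, hy⟩ := choose_one _ h2
    obtain ⟨N, hN⟩ := hy.exists
    refine ⟨y, hN.1, C, ?_⟩
    filter_upwards [hy] with N hN
    exact hN.2
  choose y hy1 hy2 using h1
  obtain ⟨y0, hy0⟩ : ∃ y0, ∀ l, ∃ l', l ≤ l' ∧ y l' = y0 := by
    by_contra hcon
    push Not at hcon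
    choose lb hlb using hcon
    obtain ⟨B, hB⟩ : ∃ B, ∀ z, lb z ≤ B :=
      ⟨univ.sup lb, fun z => Finset.le_sup (f := lb) (mem_univ z)⟩
    exact hlb (y B) B (hB _) rfl
  refine ⟨y0.1, y0.2, ?_, ?_⟩
  · obtain ⟨l', -, hl'⟩ := hy0 0
    rw [← hl']
    exact hy1 l'
  · intro l
    obtain ⟨l', hl, hl'⟩ := hy0 l
    obtain ⟨C, hC⟩ := hy2 l'
    refine ⟨C, ?_⟩
    filter_upwards [hC] with N hN
    rw [← hl']
    exact AllP_len (Subset.refl _) hl hN

/-- a large prime misses -/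
theorem exists_miss {n p : ℕ} (hp : p.Prime) (h : n < p) (e : Fin n → ℤ × ℤ)
    (he : ∀ i, IsCoprime (e i).1 (e i).2) : ∃ ρ : ℤ, ∀ a, ¬ (p : ℤ) ∣ (e a).1 * ρ + (e a).2 := by
  classical
  have : Fact p.Prime := ⟨hp⟩
  have h1 : (univ.image (fun a : Fin n => (-(((e a).2 : ℤ) : ZMod p) / (((e a).1 : ℤ) : ZMod p)))).card <
      (univ : Finset (ZMod p)).card := by
    refine lt_of_le_of_lt card_image_le ?_
    simpa [ZMod.card] using h
  obtain ⟨z, -, hz⟩ := exists_mem_notMem_of_card_lt_card h1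
  refine ⟨(z.val : ℤ), fun a hd => hz (mem_image.2 ⟨a, mem_univ _, ?_⟩)⟩
  have h2 := (ZMod.intCast_zmod_eq_zero_iff_dvd ((e a).1 * (z.val : ℤ) + (e a).2) p).2 (by exact_mod_cast hd)
  push_cast at h2
  rw [ZMod.natCast_zmod_val] at h2
  have h3 : (((e a).1 : ℤ) : ZMod p) ≠ 0 := by
    intro h0
    rw [h0, zero_mul, zero_add] at h2
    have h4 : (p : ℤ) ∣ (e a).1 := (ZMod.intCast_zmod_eq_zero_iff_dvd _ p).1 h0
    have h5 : (p : ℤ) ∣ (e a).2 := (ZMod.intCast_zmod_eq_zero_iff_dvd _ p).1 h2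
    exact (Nat.prime_iff_prime_int.1 hp).not_isUnit ((he a).isUnit_of_dvd' h4 h5)
  rw [div_eq_iff h3]
  linear_combination -h2

theorem prodlt {B n : ℕ} {β β' : Fin B} (h : β < β') (a a' : Fin n) :
    finProdFinEquiv (β, a) < finProdFinEquiv (β', a') := by
  rw [Fin.lt_def]
  simp only [finProdFinEquiv_apply_val]
  have h1 : (β : ℕ) + 1 ≤ β' := h
  have h2 : n * ((β : ℕ) + 1) ≤ n * β' := Nat.mul_le_mul_left n h1
  have h3 := a.2
  nlinarith

/-- the labels in `S` can be prescribed freely -/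
def Free {A : Type} (F : ℕ → A → ℤ × ℤ) (S : Set A) : Prop :=
  ∀ φ : List A, (∀ a ∈ φ, a ∈ S) → L G F φ ∅

theorem Free.anti {A : Type} {F : ℕ → A → ℤ × ℤ} {S S' : Set A} (h : S' ⊆ S) (hS : Free F S) :
    Free F S' := fun φ hφ => hS φ fun a ha => h (hφ a ha)

/-- columns of labelled linear forms -/
structure Lab {A : Type} (F : ℕ → A → ℤ × ℤ) : Prop where
  pos : ∀ a, ∀ᶠ j in (U : Filter ℕ), 0 < (F j a).1 ∧ IsCoprime (F j a).1 (F j a).2
  inj : ∀ j a a', ∀ᶠ j' in (U : Filter ℕ), F j' a' ≠ F j a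
  adm : ∀ (Λ : Finset A) (p : ℕ), p.Prime → ∃ ρ : ℤ, ∀ᶠ j in (U : Filter ℕ), ∀ a ∈ Λ,
    ¬ (p : ℤ) ∣ (F j a).1 * ρ + (F j a).2

/-- **free sets of labels** -/
theorem free_sub {A : Type} [DecidableEq A] {F : ℕ → A → ℤ × ℤ} (hF : Lab F) (n m : ℕ)
    (hm : 18 * m < 5 * n) (e : Fin n → A) :
    ∃ I : Finset (Fin n), I.card = m + 1 ∧ Free F {x | ∃ a ∈ I, x = e a} := by
  classical
  have hn : 1 ≤ n := by omega
  by_contra hcon
  have hex : ∀ I : Finset (Fin n), ∃ φ : List A, I.card = m + 1 → (∀ a ∈ φ, ∃ b ∈ I, a = e b) ∧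
      ¬ L G F φ ∅ := by
    intro I
    by_cases hI : I.card = m + 1
    · have h1 : ¬ Free F {x | ∃ a ∈ I, x = e a} := fun h => hcon ⟨I, hI, h⟩
      unfold Free at h1
      push Not at h1
      obtain ⟨φ, hφ1, hφ2⟩ := h1
      exact ⟨φ, fun _ => ⟨hφ1, hφ2⟩⟩
    · exact ⟨[], fun h => absurd h hI⟩
  choose φ hφ using hex
  obtain ⟨H, hH⟩ : ∃ H : ℕ, ∀ I, (φ I).length ≤ H :=
    ⟨univ.sup (fun I => (φ I).length), fun I => Finset.le_sup (f := fun I => (φ I).length) (mem_univ I)⟩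
  obtain ⟨R, hR⟩ : ∃ R : ℕ, R = n * (2 ^ n * H) := ⟨_, rfl⟩
  obtain ⟨B, hB⟩ : ∃ B : ℕ, B = 18 * R + 1 := ⟨_, rfl⟩
  have hB1 : 1 ≤ B := by omega
  have hTM0 : 18 * (m * B + R) < 5 * (B * n) := by
    have h1 : 18 * m + 1 ≤ 5 * n := hm
    have h2 : (18 * m + 1) * B ≤ 5 * n * B := Nat.mul_le_mul_right B h1
    nlinarith
  have hTM : (18 / 5 : ℝ) * ((m * B + R : ℕ) : ℝ) < ((B * n : ℕ) : ℝ) := by
    have h1 : (18 : ℝ) * ((m * B + R : ℕ) : ℝ) < 5 * ((B * n : ℕ) : ℝ) := by exact_mod_cast hTM0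
    linarith
  obtain ⟨K, hK, hQK⟩ := hitG (B * n) (m * B + R) (Nat.mul_pos hB1 hn) hTM
  -- the columns
  set Λ : Finset A := univ.image e with hΛ
  have heΛ : ∀ a, e a ∈ Λ := fun a => mem_image_of_mem _ (mem_univ a)
  choose ρ hρ using fun (p : ℕ) (hp : p.Prime) => hF.adm Λ p hp
  obtain ⟨jj, hjj, hjP, hJ⟩ := real G F (fun _ => Λ)
    (fun m f j => (∀ p ∈ Finset.range (m + 1), ∀ hp : p.Prime, ∀ a ∈ Λ,
      ¬ (p : ℤ) ∣ (F j a).1 * ρ p hp + (F j a).2) ∧
      (∀ a ∈ Λ, 0 < (F j a).1 ∧ IsCoprime (F j a).1 (F j a).2) ∧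
      ∀ i : Fin m, ∀ a ∈ Λ, ∀ a' ∈ Λ, F j a' ≠ F (f i) a) (by
    intro m f
    refine Filter.Eventually.and ?_ (Filter.Eventually.and ?_ ?_)
    · rw [Filter.eventually_all_finset]
      intro p _
      by_cases hp : p.Prime
      · filter_upwards [hρ p hp] with j hj _ a ha
        exact hj a ha
      · exact Filter.Eventually.of_forall fun j hp2 => absurd hp2 hp
    · rw [Filter.eventually_all_finset]
      intro a _
      exact hF.pos a
    · refine Filter.eventually_all.2 fun i => ?_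
      rw [Filter.eventually_all_finset]
      intro a _
      rw [Filter.eventually_all_finset]
      intro a' _
      exact hF.inj _ a a')
  obtain ⟨N₀, hN₀⟩ : ∃ N₀, N₀ = B * n * K + H := ⟨_, rfl⟩
  set idx : Fin (B * n) → Fin K → ℕ := fun g i => N₀ + (finProdFinEquiv (g, i) : ℕ) with hidx
  set lab : Fin (B * n) → Fin n := fun g => (finProdFinEquiv.symm g).2 with hlab
  set x : Fin (B * n) → Fin K → ℤ × ℤ := fun g i => F (jj (idx g i)) (e (lab g)) with hx
  have hxinj : Function.Injective (fun y : Fin (B * n) × Fin K => x y.1 y.2) := by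
    rintro ⟨g, i⟩ ⟨g', i'⟩ h
    simp only [hx] at h
    rcases lt_trichotomy (finProdFinEquiv (g, i)) (finProdFinEquiv (g', i')) with h1 | h1 | h1
    · exfalso
      have h2 : idx g i < idx g' i' := Nat.add_lt_add_left h1 _
      exact (hjP (idx g' i')).2.2 ⟨idx g i, h2⟩ _ (heΛ _) _ (heΛ _) h.symm
    · exact finProdFinEquiv.injective h1
    · exfalso
      have h2 : idx g' i' < idx g i := Nat.add_lt_add_left h1 _
      exact (hjP (idx g i)).2.2 ⟨idx g' i', h2⟩ _ (heΛ _) _ (heΛ _) h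
  obtain ⟨S, c, hS, hPat⟩ := hQK x hxinj (fun g i => (hjP (idx g i)).2.1 _ (heΛ _)) (fun p hp hpK =>
    ⟨ρ p hp, fun g i => (hjP (idx g i)).1 p (Finset.mem_range.2 (by simp only [hidx]; omega)) hp _ (heΛ _)⟩)
  -- a set of labels which occurs in many blocks
  set Gd : Finset (Fin n) → Finset (Fin B) := fun I =>
    univ.filter (fun β => ∀ a ∈ I, finProdFinEquiv (β, a) ∈ S) with hGd
  obtain ⟨I, hI, hIc⟩ : ∃ I : Finset (Fin n), I.card = m + 1 ∧ H < (Gd I).card := by
    by_contra hc2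
    push Not at hc2
    set hits : Fin B → Finset (Fin n) := fun β => univ.filter (fun a => finProdFinEquiv (β, a) ∈ S)
      with hhits
    have h1 : S.card = ∑ β, (hits β).card := by
      have h2 : S = univ.biUnion (fun β => (hits β).image (fun a => finProdFinEquiv (β, a))) := by
        ext g
        simp only [mem_biUnion, mem_univ, true_and, mem_image, hhits, mem_filter]
        constructor
        · intro hg
          have e1 : finProdFinEquiv ((finProdFinEquiv.symm g).1, (finProdFinEquiv.symm g).2) = g := by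
            rw [Prod.mk.eta, Equiv.apply_symm_apply]
          exact ⟨(finProdFinEquiv.symm g).1, (finProdFinEquiv.symm g).2, by rw [e1]; exact hg, e1⟩
        · rintro ⟨β, a, ha, rfl⟩
          exact ha
      conv_lhs => rw [h2]
      rw [card_biUnion]
      · refine sum_congr rfl fun β _ => ?_
        rw [card_image_of_injective]
        intro a a' h
        have := finProdFinEquiv.injective h
        simpa using this
      · intro β _ β' _ hne
        rw [Function.onFun, Finset.disjoint_left]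
        intro g hg hg'
        obtain ⟨a, -, rfl⟩ := mem_image.1 hg
        obtain ⟨a', -, h⟩ := mem_image.1 hg'
        have := finProdFinEquiv.injective h
        simp only [Prod.mk.injEq] at this
        exact hne this.1.symm
    set Good : Finset (Fin B) := univ.filter (fun β => m + 1 ≤ (hits β).card) with hGood
    have h2 : S.card ≤ m * B + n * Good.card := by
      rw [h1]
      calc ∑ β, (hits β).card ≤ ∑ β, (m + if m + 1 ≤ (hits β).card then n else 0) := by
            refine sum_le_sum fun β _ => ?_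
            split_ifs with h
            · have : (hits β).card ≤ n := by
                have := card_le_univ (hits β)
                simpa using this
              omega
            · omega
        _ = m * B + n * Good.card := by
            rw [sum_add_distrib, sum_const, card_univ, Fintype.card_fin, smul_eq_mul, ← sum_filter,
              sum_const, smul_eq_mul]
            ring
    have h3 : Good.card ≤ 2 ^ n * H := by
      have h4 : Good ⊆ (powersetCard (m + 1) (univ : Finset (Fin n))).biUnion Gd := by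
        intro β hβ
        obtain ⟨I, hI1, hI2⟩ := exists_subset_card_eq (mem_filter.1 hβ).2
        refine mem_biUnion.2 ⟨I, mem_powersetCard.2 ⟨subset_univ _, hI2⟩, mem_filter.2 ⟨mem_univ _, ?_⟩⟩
        intro a ha
        exact (mem_filter.1 (hI1 ha)).2
      calc Good.card ≤ _ := card_le_card h4
        _ ≤ ∑ I ∈ powersetCard (m + 1) (univ : Finset (Fin n)), (Gd I).card := card_biUnion_le
        _ ≤ ∑ I ∈ powersetCard (m + 1) (univ : Finset (Fin n)), H :=
            sum_le_sum fun I hI => hc2 I (mem_powersetCard.1 hI).2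
        _ ≤ 2 ^ n * H := by
            rw [sum_const, smul_eq_mul]
            refine Nat.mul_le_mul_right _ ?_
            calc (powersetCard (m + 1) (univ : Finset (Fin n))).card
                ≤ (univ : Finset (Finset (Fin n))).card := card_le_univ _
              _ = 2 ^ n := by simp
    have h5 : n * Good.card ≤ n * (2 ^ n * H) := Nat.mul_le_mul_left n h3
    omega
  -- the list
  obtain ⟨hφ1, hφ2⟩ := hφ I hI
  have hlen := hH I
  set bl : Fin (Gd I).card ↪o Fin B := (Gd I).orderEmbOfFin rfl with hbl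
  have hblm : ∀ t, bl t ∈ Gd I := fun t => Finset.orderEmbOfFin_mem _ rfl t
  have hlab' : ∀ l : Fin (φ I).length, ∃ b ∈ I, (φ I).get l = e b := fun l =>
    hφ1 _ (List.get_mem _ _)
  choose a ha1 ha2 using hlab'
  set β : Fin (φ I).length → Fin B := fun l => bl ⟨l, by have := l.2; omega⟩ with hβ
  set g : Fin (φ I).length → Fin (B * n) := fun l => finProdFinEquiv (β l, a l) with hg
  have hgS : ∀ l, g l ∈ S := fun l => (mem_filter.1 (hblm ⟨l, by have := l.2; omega⟩)).2 _ (ha1 l)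
  have hβlt : ∀ l l', l < l' → β l < β l' := fun l l' h => bl.strictMono (by
    rw [Fin.lt_def]; exact h)
  have hglt : ∀ l l', l < l' → g l < g l' := fun l l' h => prodlt (hβlt l l' h) _ _
  set Il : List (ℕ × A) := List.ofFn (fun l : Fin (φ I).length =>
    (idx (g l) (c (g l)), (φ I).get l)) with hIl
  have hr := hJ Il (by
    rw [hIl, List.pairwise_ofFn]
    intro l l' hll
    exact Nat.add_lt_add_left (prodlt (hglt l l' hll) _ _) _) (by
    intro y hy
    have hl : Il.length = (φ I).length := by rw [hIl, List.length_ofFn]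
    rw [hl]
    rw [hIl, List.mem_ofFn] at hy
    obtain ⟨l, rfl⟩ := hy
    refine ⟨?_, ?_⟩
    · simp only [hidx]
      omega
    · intro z hz
      rw [hIl, List.mem_ofFn] at hz
      obtain ⟨l', rfl⟩ := hz
      simp only
      rw [ha2 l']
      exact heΛ _)
  apply hφ2
  have hsnd : Il.map Prod.snd = φ I := by
    rw [hIl, List.map_ofFn]
    have : (Prod.snd ∘ fun l : Fin (φ I).length => (idx (g l) (c (g l)), (φ I).get l)) =
        (φ I).get := by funext l; rfl
    rw [this, List.ofFn_get]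
  rw [← hsnd, ← hr]
  refine G_anti ?_ hPat
  intro y hy
  rw [List.mem_toFinset, List.mem_map] at hy
  obtain ⟨z, hz, rfl⟩ := hy
  rw [hIl, List.mem_ofFn] at hz
  obtain ⟨l, rfl⟩ := hz
  refine mem_image.2 ⟨g l, hgS l, ?_⟩
  simp only [hx]
  have : lab (g l) = a l := by
    change (finProdFinEquiv.symm (finProdFinEquiv (β l, a l))).2 = a l
    rw [Equiv.symm_apply_apply]
  rw [this, ha2 l]

/-- admissible columns with different forms -/
structure Cols {n : ℕ} (F : ℕ → Fin n → ℤ × ℤ) : Prop where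
  pos : ∀ j i, 0 < (F j i).1 ∧ IsCoprime (F j i).1 (F j i).2
  inj : ∀ j i j' i', F j i = F j' i' → j = j' ∧ i = i'
  adm : ∀ p : ℕ, p.Prime → p ≤ n → ∀ j, ∃ ρ : ℤ, ∀ i, ¬ (p : ℤ) ∣ (F j i).1 * ρ + (F j i).2

/-- for every prime one residue is missed by almost all columns -/
theorem Cols.miss {n : ℕ} {F : ℕ → Fin n → ℤ × ℤ} (hF : Cols F) {p : ℕ} (hp : p.Prime) :
    ∃ ρ : ℤ, ∀ᶠ j in (U : Filter ℕ), ∀ i, ¬ (p : ℤ) ∣ (F j i).1 * ρ + (F j i).2 := by
  have h1 : ∀ j, ∃ ρ : ℤ, ∀ i, ¬ (p : ℤ) ∣ (F j i).1 * ρ + (F j i).2 := by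
    intro j
    rcases Nat.lt_or_ge n p with h | h
    · exact exists_miss hp h (F j) (fun i => (hF.pos j i).2)
    · exact hF.adm p hp h j
  have hp0 : (0 : ℤ) < p := by exact_mod_cast hp.pos
  obtain ⟨a, ha⟩ := choose_one (α := Fin p) (fun a j => ∀ i, ¬ (p : ℤ) ∣ (F j i).1 * ((a : ℕ) : ℤ) + (F j i).2)
    (Filter.Eventually.of_forall fun j => by
      obtain ⟨ρ, hρ⟩ := h1 j
      have h2 : 0 ≤ ρ % p := Int.emod_nonneg _ hp0.ne'
      have h3 : ρ % p < p := Int.emod_lt_of_pos _ hp0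
      refine ⟨⟨(ρ % p).toNat, by omega⟩, fun i hd => hρ i ?_⟩
      simp only at hd
      rw [Int.toNat_of_nonneg h2] at hd
      have h4 : (p : ℤ) ∣ (F j i).1 * (ρ - ρ % p) := Dvd.dvd.mul_left (Int.dvd_self_sub_emod) _
      have h5 := dvd_add hd h4
      have e : (F j i).1 * (ρ % p) + (F j i).2 + (F j i).1 * (ρ - ρ % p) = (F j i).1 * ρ + (F j i).2 := by ring
      rwa [e] at h5)
  exact ⟨(a : ℕ), ha⟩

theorem Cols.lab {n : ℕ} {F : ℕ → Fin n → ℤ × ℤ} (hF : Cols F) : Lab F where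
  pos a := Filter.Eventually.of_forall fun j => hF.pos j a
  inj j a a' := by
    filter_upwards [ev_ge (j + 1)] with j' hj' h
    have := (hF.inj _ _ _ _ h).1
    omega
  adm Λ p hp := by
    obtain ⟨ρ, hρ⟩ := hF.miss hp
    refine ⟨ρ, ?_⟩
    filter_upwards [hρ] with j hj a _
    exact hj a

end Pool.Agent.U289.KT
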