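import Pool.Agent.U289.KT.Extract
import Pool.Agent.Helper639.Tk.Ptak

/-! Weighted free sets of labels, and one infinite free set which is large in infinitely many windows. -/

set_option autoImplicit false

namespace Pool.Agent.U289.KT

open Finset Filter
open Pool.Agent.Y827.HN

/-- the empty set of forms -/
theorem G_empty : G ∅ := by
  classical
  obtain ⟨K, hK, h⟩ := hitG 1 0 le_rfl (by norm_num)
  have hf : (0 : ℤ) < (K.factorial : ℤ) := by exact_mod_cast Nat.factorial_pos K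
  obtain ⟨S, c, -, hG⟩ := h (fun _ i => (1, (K.factorial : ℤ) * ((i : ℕ) : ℤ))) (by
      rintro ⟨g, i⟩ ⟨g', i'⟩ he
      simp only [Prod.mk.injEq, true_and] at he
      have h1 := mul_left_cancel₀ hf.ne' he
      have h2 : i = i' := Fin.ext (by exact_mod_cast h1)
      rw [h2, Subsingleton.elim g g'])
    (fun _ _ => ⟨one_pos, isCoprime_one_left⟩) (by
      intro p hp hpK
      rw [one_mul] at hpK
      refine ⟨1, fun g i hd => ?_⟩
      have h1 : (p : ℤ) ∣ (K.factorial : ℤ) * ((i : ℕ) : ℤ) :=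
        Dvd.dvd.mul_right (by exact_mod_cast Nat.dvd_factorial hp.pos hpK) _
      have h2 := dvd_sub hd h1
      have e : (1 : ℤ) * 1 + (K.factorial : ℤ) * ((i : ℕ) : ℤ) - (K.factorial : ℤ) * ((i : ℕ) : ℤ) = 1 := by ring
      rw [e] at h2
      exact (Nat.prime_iff_prime_int.1 hp).not_isUnit (isUnit_of_dvd_one h2))
  exact G_anti (empty_subset _) hG

theorem free_empty {A : Type} (F : ℕ → A → ℤ × ℤ) : Free F (∅ : Set A) := by
  intro φ hφ
  have : φ = [] := by
    cases φ with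
    | nil => rfl
    | cons a φ => exact absurd (hφ a (List.mem_cons_self ..)) (by simp)
  subst this
  exact G_empty

/-- natural weights -/
theorem free_nat {A : Type} [DecidableEq A] {F : ℕ → A → ℤ × ℤ} (hF : Lab F) (V : Finset A) (r : A → ℕ) :
    ∃ I ⊆ V, Free F (I : Set A) ∧ 5 * ∑ a ∈ V, r a ≤ 18 * ∑ a ∈ I, r a := by
  classical
  obtain ⟨n, hn⟩ : ∃ n, n = ∑ a ∈ V, r a := ⟨_, rfl⟩
  rcases Nat.eq_zero_or_pos n with h0 | hpos
  · exact ⟨∅, empty_subset _, by rw [coe_empty]; exact free_empty F, by omega⟩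
  · obtain ⟨m, hm1, hm2⟩ : ∃ m : ℕ, 18 * m < 5 * n ∧ 5 * n ≤ 18 * (m + 1) :=
      ⟨(5 * n - 1) / 18, by omega, by omega⟩
    have hcard : Fintype.card (Σ a : V, Fin (r a)) = n := by
      rw [Fintype.card_sigma, hn]
      simp only [Fintype.card_fin]
      exact Finset.sum_coe_sort V r
    set eq := Fintype.equivFinOfCardEq hcard with heq
    obtain ⟨I₀, hI₀, hfree⟩ := free_sub hF n m hm1 (fun i => ((eq.symm i).1 : A))
    refine ⟨I₀.image (fun i => ((eq.symm i).1 : A)), ?_, ?_, ?_⟩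
    · intro y hy
      obtain ⟨i, -, rfl⟩ := mem_image.1 hy
      exact (eq.symm i).1.2
    · refine hfree.anti ?_
      intro y hy
      obtain ⟨i, hi, rfl⟩ := mem_image.1 (mem_coe.1 hy)
      exact ⟨i, hi, rfl⟩
    · have h1 : I₀.card ≤ ∑ a ∈ I₀.image (fun i => ((eq.symm i).1 : A)), r a := by
        rw [card_eq_sum_card_image (fun i => ((eq.symm i).1 : A)) I₀]
        refine sum_le_sum fun a ha => ?_
        obtain ⟨i₀, -, hi₀⟩ := mem_image.1 ha
        have h2 : ({x ∈ I₀ | ((eq.symm x).1 : A) = a}).card ≤ (univ : Finset (Fin (r a))).card := by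
          have key : ∀ x ∈ I₀.filter (fun x => ((eq.symm x).1 : A) = a), ∃ y : Fin (r a), (y : ℕ) = ((eq.symm x).2 : ℕ) := by
            intro x hx
            have hxa := (mem_filter.1 hx).2
            have h3 := (eq.symm x).2.2
            exact ⟨⟨((eq.symm x).2 : ℕ), by rw [← hxa]; exact h3⟩, rfl⟩
          refine card_le_card_of_injOn (fun x => if hx : x ∈ I₀.filter (fun x => ((eq.symm x).1 : A) = a) then
            (key x hx).choose else ⟨0, by
              have h3 := (eq.symm i₀).2.2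
              rw [← hi₀]
              omega⟩) (fun _ _ => mem_univ _) ?_
          intro x hx y hy hxy
          have hx' := mem_coe.1 hx
          have hy' := mem_coe.1 hy
          simp only [dif_pos hx', dif_pos hy'] at hxy
          have e1 := (key x hx').choose_spec
          have e2 := (key y hy').choose_spec
          rw [hxy, e2] at e1
          have hxa := (mem_filter.1 hx').2
          have hya := (mem_filter.1 hy').2
          apply eq.symm.injective
          have h4 : (eq.symm x).1 = (eq.symm y).1 := Subtype.ext (by rw [hxa, hya])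
          refine Sigma.ext h4 ?_
          rw [Fin.heq_ext_iff (by rw [h4])]
          exact e1.symm
        simpa using h2
      rw [← hn]
      omega

/-- real weights -/
theorem free_weight {A : Type} [DecidableEq A] {F : ℕ → A → ℤ × ℤ} (hF : Lab F) (V : Finset A)
    (w : A → ℝ) (hw : ∀ a, 0 ≤ w a) :
    ∃ I ⊆ V, Free F (I : Set A) ∧ 5 * ∑ a ∈ V, w a ≤ 18 * ∑ a ∈ I, w a := by
  classical
  by_contra hcon
  push Not at hcon
  have h1 : ∀ I : Finset A, ∃ M : ℕ, I ⊆ V → Free F (I : Set A) →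
      5 * (V.card : ℝ) < M * (5 * ∑ a ∈ V, w a - 18 * ∑ a ∈ I, w a) := by
    intro I
    by_cases hI : I ⊆ V ∧ Free F (I : Set A)
    · have h2 := hcon I hI.1 hI.2
      have h3 : 0 < 5 * ∑ a ∈ V, w a - 18 * ∑ a ∈ I, w a := by linarith
      obtain ⟨M, hM⟩ := exists_nat_gt (5 * (V.card : ℝ) / (5 * ∑ a ∈ V, w a - 18 * ∑ a ∈ I, w a))
      refine ⟨M, fun _ _ => ?_⟩
      rwa [div_lt_iff₀ h3] at hM
    · exact ⟨0, fun h h' => absurd ⟨h, h'⟩ hI⟩
  choose M hM using h1
  obtain ⟨M₀, hM₀⟩ : ∃ M₀ : ℕ, ∀ I ∈ V.powerset, M I ≤ M₀ := ⟨V.powerset.sup M, fun I hI => le_sup hI⟩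
  obtain ⟨I, hIV, hIF, hI⟩ := free_nat hF V (fun a => ⌊(M₀ : ℝ) * w a⌋₊)
  have h2 := hM I hIV hIF
  have h3 := hcon I hIV hIF
  have h4 : (M I : ℝ) ≤ M₀ := by exact_mod_cast hM₀ I (mem_powerset.2 hIV)
  have h5 : 5 * (V.card : ℝ) < M₀ * (5 * ∑ a ∈ V, w a - 18 * ∑ a ∈ I, w a) :=
    lt_of_lt_of_le h2 (mul_le_mul_of_nonneg_right h4 (by linarith))
  have h6 : (5 : ℝ) * ∑ a ∈ V, ((⌊(M₀ : ℝ) * w a⌋₊ : ℕ) : ℝ) ≤ 18 * ∑ a ∈ I, ((⌊(M₀ : ℝ) * w a⌋₊ : ℕ) : ℝ) := by
    exact_mod_cast hI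
  have h7 : ∑ a ∈ I, ((⌊(M₀ : ℝ) * w a⌋₊ : ℕ) : ℝ) ≤ M₀ * ∑ a ∈ I, w a := by
    rw [mul_sum]
    exact sum_le_sum fun a _ => Nat.floor_le (mul_nonneg (Nat.cast_nonneg _) (hw a))
  have h8 : (M₀ : ℝ) * ∑ a ∈ V, w a - V.card ≤ ∑ a ∈ V, ((⌊(M₀ : ℝ) * w a⌋₊ : ℕ) : ℝ) := by
    have : (M₀ : ℝ) * ∑ a ∈ V, w a - V.card = ∑ a ∈ V, ((M₀ : ℝ) * w a - 1) := by
      rw [sum_sub_distrib, mul_sum]
      simp
    rw [this]
    exact sum_le_sum fun a _ => (Nat.sub_one_lt_floor _).le
  nlinarith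

/-- limits of free sets -/
theorem free_limit {A : Type} [DecidableEq A] {F : ℕ → A → ℤ × ℤ} (I : ℕ → Finset A)
    (hI : ∀ n, Free F (I n : Set A)) : Free F {a | ∀ᶠ n in (U : Filter ℕ), a ∈ I n} := by
  intro φ hφ
  have h1 : ∀ᶠ n in (U : Filter ℕ), ∀ a ∈ φ.toFinset, a ∈ I n := by
    rw [Filter.eventually_all_finset]
    intro a ha
    exact hφ a (List.mem_toFinset.1 ha)
  obtain ⟨n, hn⟩ := h1.exists
  exact hI n φ fun a ha => hn a (List.mem_toFinset.2 ha)

open Classical in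
/-- **one free set which is large in infinitely many windows** -/
theorem free_windows {A : Type} [DecidableEq A] {F : ℕ → A → ℤ × ℤ} (hF : Lab F) (W : ℕ → Finset A)
    (hW : ∀ t, (W t).Nonempty) (ε : ℝ) (hε : 0 < ε) :
    ∃ S : Set A, Free F S ∧ ∃ᶠ t in atTop,
      (5 / 18 - ε) * ((W t).card : ℝ) ≤ (((W t).filter (fun a => a ∈ S)).card : ℝ) := by
  have hWc : ∀ t, (0 : ℝ) < (W t).card := fun t => by exact_mod_cast (hW t).card_pos
  by_contra hcon0
  have hcon : ∀ S : Set A, Free F S → ¬ ∃ᶠ t in atTop,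
      (5 / 18 - ε) * ((W t).card : ℝ) ≤ (((W t).filter (fun a => a ∈ S)).card : ℝ) :=
    fun S hS h => hcon0 ⟨S, hS, h⟩
  -- the family of the sets of windows in which one free set is large
  obtain ⟨J, c, -, hc0, hcJ, hc1, hcF⟩ := Pool.Agent.Helper639.Tk.ptak
    (fun T : Finset ℕ => ∃ I : Finset A, Free F (I : Set A) ∧ ∀ t ∈ T,
      (5 / 18 - ε) * ((W t).card : ℝ) ≤ (((W t).filter (fun a => a ∈ I)).card : ℝ))
    (fun T T' hTT' ⟨I, hI, h⟩ => ⟨I, hI, fun t ht => h t (hTT' ht)⟩)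
    (by
      intro M hM
      by_contra hinf
      have h1 : ∀ n : ℕ, ∃ I : Finset A, Free F (I : Set A) ∧ ∀ t ∈ (range (n + 1)).filter (fun t => t ∈ M),
          (5 / 18 - ε) * ((W t).card : ℝ) ≤ (((W t).filter (fun a => a ∈ I)).card : ℝ) := fun n =>
        hM _ (fun t ht => (mem_filter.1 (mem_coe.1 ht)).2)
      choose I hI1 hI2 using h1
      refine hcon {a | ∀ᶠ n in (U : Filter ℕ), a ∈ I n} (free_limit I hI1) ?_
      have h2 : ∀ t ∈ M, (5 / 18 - ε) * ((W t).card : ℝ) ≤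
          (((W t).filter (fun a => a ∈ {a | ∀ᶠ n in (U : Filter ℕ), a ∈ I n})).card : ℝ) := by
        intro t ht
        have h3 : ∀ᶠ n in (U : Filter ℕ), ∀ a ∈ W t, (a ∈ I n ↔ ∀ᶠ n in (U : Filter ℕ), a ∈ I n) := by
          rw [Filter.eventually_all_finset]
          intro a _
          by_cases h : ∀ᶠ n in (U : Filter ℕ), a ∈ I n
          · filter_upwards [h] with n hn
            exact ⟨fun _ => h, fun _ => hn⟩
          · have h' := Ultrafilter.eventually_not.2 h
            filter_upwards [h'] with n hn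
            exact ⟨fun h2 => absurd h2 hn, fun h2 => absurd h2 h⟩
        obtain ⟨n, hn1, hn2⟩ := (h3.and (ev_ge t)).exists
        have h4 := hI2 n t (mem_filter.2 ⟨mem_range.2 (by omega), ht⟩)
        have h5 : (W t).filter (fun a => a ∈ I n) =
            (W t).filter (fun a => a ∈ {a | ∀ᶠ n in (U : Filter ℕ), a ∈ I n}) :=
          filter_congr fun a ha => hn1 a ha
        rw [← h5]
        exact h4
      have h3 : ∃ᶠ t in atTop, t ∈ M := Nat.frequently_atTop_iff_infinite.2 hinf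
      exact h3.mono h2)
    (ε / 2) (by positivity) 0
  -- the weight
  set w : A → ℝ := fun a => ∑ t ∈ J, if a ∈ W t then c t / (W t).card else 0 with hw
  have hw0 : ∀ a, 0 ≤ w a := fun a => sum_nonneg fun t _ => by
    split_ifs
    · exact div_nonneg (hc0 t) (hWc t).le
    · exact le_rfl
  have hsum : ∀ E : Finset A, ∑ a ∈ E, w a = ∑ t ∈ J, c t / (W t).card * ((E ∩ W t).card : ℝ) := by
    intro E
    simp only [hw]
    rw [sum_comm]
    refine sum_congr rfl fun t _ => ?_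
    rw [← sum_filter, sum_const, nsmul_eq_mul, filter_mem_eq_inter, mul_comm]
  obtain ⟨I, hIV, hIF, hI⟩ := free_weight hF (J.biUnion W) w hw0
  rw [hsum, hsum] at hI
  have hV : ∑ t ∈ J, c t / (W t).card * ((J.biUnion W ∩ W t).card : ℝ) = 1 := by
    rw [← hc1]
    refine sum_congr rfl fun t ht => ?_
    have : J.biUnion W ∩ W t = W t := inter_eq_right.2 (subset_biUnion_of_mem W ht)
    rw [this, div_mul_cancel₀ _ (hWc t).ne']
  rw [hV] at hI
  set T : Finset ℕ := J.filter (fun t => (5 / 18 - ε) * ((W t).card : ℝ) ≤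
    (((W t).filter (fun a => a ∈ I)).card : ℝ)) with hT
  have hTF := hcF T ⟨I, hIF, fun t ht => (mem_filter.1 ht).2⟩
  have hb : ∀ t ∈ J, c t / (W t).card * ((I ∩ W t).card : ℝ) ≤
      (if t ∈ T then c t else 0) + (5 / 18 - ε) * c t + (if t ∈ T then ε * c t else 0) := by
    intro t ht
    have e1 : I ∩ W t = (W t).filter (fun a => a ∈ I) := by
      ext a
      rw [mem_inter, mem_filter, and_comm]
    have hct := hc0 t
    by_cases htT : t ∈ T
    · rw [if_pos htT, if_pos htT]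
      have h1 : ((I ∩ W t).card : ℝ) ≤ (W t).card := by exact_mod_cast card_le_card inter_subset_right
      have h2 : c t / (W t).card * ((I ∩ W t).card : ℝ) ≤ c t := by
        rw [div_mul_eq_mul_div, div_le_iff₀ (hWc t)]
        exact mul_le_mul_of_nonneg_left h1 hct
      nlinarith
    · rw [if_neg htT, if_neg htT, zero_add, add_zero]
      have h1 : (((W t).filter (fun a => a ∈ I)).card : ℝ) < (5 / 18 - ε) * ((W t).card : ℝ) := by
        by_contra h
        exact htT (mem_filter.2 ⟨ht, not_lt.1 h⟩)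
      rw [e1, div_mul_eq_mul_div, div_le_iff₀ (hWc t)]
      nlinarith
  have hb2 := sum_le_sum hb
  have hTJ : T ⊆ J := filter_subset _ _
  have e2 : ∑ t ∈ J, (if t ∈ T then c t else 0) = ∑ t ∈ T, c t := by
    rw [← sum_filter, filter_mem_eq_inter, inter_eq_right.2 hTJ]
  have e3 : ∑ t ∈ J, (if t ∈ T then ε * c t else 0) = ε * ∑ t ∈ T, c t := by
    rw [← sum_filter, filter_mem_eq_inter, inter_eq_right.2 hTJ, mul_sum]
  rw [sum_add_distrib, sum_add_distrib, e2, e3, ← mul_sum, hc1] at hb2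
  have hε1 : ε < 5 / 18 := by
    by_contra h
    have h1 := hcon ∅ (free_empty F)
    apply h1
    refine Filter.Eventually.frequently (Filter.Eventually.of_forall fun t => ?_)
    have : (5 / 18 - ε) * ((W t).card : ℝ) ≤ 0 := mul_nonpos_of_nonpos_of_nonneg (by linarith) (hWc t).le
    exact this.trans (Nat.cast_nonneg _)
  nlinarith

end Pool.Agent.U289.KT
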